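import Pool.Agent.W297.LP.Stm

/-! LP-ELIM and LP-RAM (helper297). -/

set_option autoImplicit false
set_option linter.unusedSectionVars false

open Finset

namespace Pool.Agent.W688.LP

open Pool.Agent.W297.LP

section elim
variable {V : Type} [Fintype V] [DecidableEq V] {W : V → V → ℝ}

lemma ker_nonneg (hW : Ker W) (x y : V) : 0 ≤ W x y := by
  rcases hW.zo x y with h | h <;> rw [h] <;> norm_num

/-- the state of the elimination -/
def St (W : V → V → ℝ) (τ : ℝ) (m0 : ℕ) (S : Finset V) : Prop :=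
  m0 ≤ S.card ∧ (∀ v, v ∉ S → ∑ y ∈ S, W v y ≤ τ * (Fintype.card V : ℝ)) ∧
    ∑ x, ∑ y, W x y ≤ ∑ x ∈ S, ∑ y ∈ S, W x y +
      2 * τ * (Fintype.card V : ℝ) * ((Fintype.card V : ℝ) - (S.card : ℝ))

lemma loss (hW : Ker W) {S : Finset V} {v : V} (hv : v ∈ S) :
    ∑ x ∈ S, ∑ y ∈ S, W x y ≤ ∑ x ∈ S.erase v, ∑ y ∈ S.erase v, W x y + 2 * ∑ y ∈ S, W v y := by
  have h1 : ∑ x ∈ S, ∑ y ∈ S, W x y = ∑ y ∈ S, W v y + ∑ x ∈ S.erase v, ∑ y ∈ S, W x y :=
    (Finset.add_sum_erase S (fun x => ∑ y ∈ S, W x y) hv).symm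
  have h2 : ∑ x ∈ S.erase v, ∑ y ∈ S, W x y =
      ∑ x ∈ S.erase v, (W x v + ∑ y ∈ S.erase v, W x y) :=
    Finset.sum_congr rfl fun x _ => (Finset.add_sum_erase S (fun y => W x y) hv).symm
  have h3 : ∑ x ∈ S.erase v, W x v ≤ ∑ y ∈ S, W v y := by
    rw [Finset.sum_congr rfl fun x _ => hW.symm x v]
    exact Finset.sum_le_sum_of_subset_of_nonneg (Finset.erase_subset v S)
      fun y _ _ => ker_nonneg hW v y
  rw [h1, h2, Finset.sum_add_distrib]
  linarith

lemma St.step (hW : Ker W) {τ : ℝ} {m0 : ℕ} {S : Finset V} (hS : St W τ m0 S)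
    {v : V} (hv : v ∈ S) (h : ∑ y ∈ S, W v y < τ * (Fintype.card V : ℝ)) (hm : S.card ≠ m0) :
    St W τ m0 (S.erase v) := by
  obtain ⟨h1, h2, h3⟩ := hS
  have hc : (S.erase v).card + 1 = S.card := Finset.card_erase_add_one hv
  have hc' : ((S.erase v).card : ℝ) + 1 = (S.card : ℝ) := by exact_mod_cast hc
  have hsub : ∀ w, ∑ y ∈ S.erase v, W w y ≤ ∑ y ∈ S, W w y := fun w =>
    Finset.sum_le_sum_of_subset_of_nonneg (Finset.erase_subset v S) fun y _ _ => ker_nonneg hW w y
  refine ⟨by omega, fun w hw => ?_, ?_⟩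
  · by_cases hwv : w = v
    · subst hwv
      exact (hsub w).trans h.le
    · exact (hsub w).trans (h2 w fun hwS => hw (Finset.mem_erase.2 ⟨hwv, hwS⟩))
  · have h4 := loss hW hv
    have h5 : 2 * τ * (Fintype.card V : ℝ) * ((Fintype.card V : ℝ) - (S.card : ℝ)) + 2 *
        (τ * (Fintype.card V : ℝ)) =
        2 * τ * (Fintype.card V : ℝ) * ((Fintype.card V : ℝ) - ((S.erase v).card : ℝ)) := by
      rw [← hc']; ring
    linarith

end elim

theorem elim : SElim := by
  intro V _ _ W hW τ hτ m0 hm0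
  classical
  have huniv : St W τ m0 univ := by
    refine ⟨by simpa using hm0, fun v hv => absurd (Finset.mem_univ v) hv, ?_⟩
    simp
  obtain ⟨S, hS, hmin⟩ := Finset.exists_min_image
    ((univ : Finset (Finset V)).filter fun S => St W τ m0 S) (fun S => S.card)
    ⟨univ, Finset.mem_filter.2 ⟨Finset.mem_univ _, huniv⟩⟩
  rw [Finset.mem_filter] at hS
  have hSt := hS.2
  refine ⟨S, hSt.1, ?_, hSt.2.1, ?_⟩
  · by_contra hc
    push Not at hc
    obtain ⟨hc1, x, hx, hc2⟩ := hc
    have h := hSt.step hW hx hc2 hc1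
    have h2 := hmin _ (Finset.mem_filter.2 ⟨Finset.mem_univ _, h⟩)
    have hc : (S.erase x).card + 1 = S.card := Finset.card_erase_add_one hx
    omega
  · have h3 := hSt.2.2
    unfold ee ms
    rcases Nat.eq_zero_or_pos (Fintype.card V) with h0 | h0
    · rw [h0]
      simp only [Nat.cast_zero, ne_eq, OfNat.ofNat_ne_zero, not_false_eq_true, zero_pow, div_zero,
        sub_zero, mul_one, zero_add]
      linarith
    · have hn : (0 : ℝ) < Fintype.card V := by exact_mod_cast h0
      have hn2 : (0 : ℝ) < (Fintype.card V : ℝ) ^ 2 := by positivity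
      rw [div_le_iff₀ hn2]
      have e : ((∑ x ∈ S, ∑ y ∈ S, W x y) / (Fintype.card V : ℝ) ^ 2 +
          2 * τ * (1 - (S.card : ℝ) / (Fintype.card V : ℝ))) * (Fintype.card V : ℝ) ^ 2 =
          ∑ x ∈ S, ∑ y ∈ S, W x y +
            2 * τ * (Fintype.card V : ℝ) * ((Fintype.card V : ℝ) - (S.card : ℝ)) := by
        field_simp
      rw [e]
      exact h3

section ram
variable {V : Type} [Fintype V] {W : V → V → ℝ}

lemma mem_cl {D : Finset V} {s : ℕ} {x : Fin s → V} :
    x ∈ cl W D s ↔ (∀ i, x i ∈ D) ∧ ∀ i j, i ≠ j → W (x i) (x j) = 1 := by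
  unfold cl
  simp

lemma cl_mono {D E : Finset V} (h : D ⊆ E) (s : ℕ) : cl W D s ⊆ cl W E s := by
  intro x hx
  rw [mem_cl] at hx ⊢
  exact ⟨fun i => h (hx.1 i), hx.2⟩

lemma cl_zero (D : Finset V) : (cl W D 0).card = 1 := by
  rw [Finset.card_eq_one]
  refine ⟨Fin.elim0, ?_⟩
  ext x
  rw [mem_cl, Finset.mem_singleton]
  constructor
  · intro _; exact Subsingleton.elim _ _
  · intro _; exact ⟨fun i => i.elim0, fun i => i.elim0⟩

lemma ker_co (hW : Ker W) : Ker (co W) := by
  refine ⟨fun x y => ?_, fun x y => ?_⟩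
  · unfold co; rw [hW.symm]
  · unfold co
    rcases hW.zo x y with h | h <;> rw [h] <;> norm_num

open Classical in
/-- neighbours in `D` -/
noncomputable def nb (W : V → V → ℝ) (D : Finset V) (x : V) : Finset V :=
  D.filter (fun y => W x y = 1)

lemma nb_sub (D : Finset V) (x : V) : nb W D x ⊆ D := by
  unfold nb; exact Finset.filter_subset _ _

lemma nb_card (hW : Ker W) (D : Finset V) (x : V) :
    (nb W D x).card + (nb (co W) D x).card = D.card := by
  classical
  have h1 : nb (co W) D x = D.filter (fun y => ¬ W x y = 1) := by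
    unfold nb
    ext y
    rw [Finset.mem_filter, Finset.mem_filter]
    unfold co
    rcases hW.zo x y with h | h <;> rw [h] <;> norm_num
  rw [h1]
  unfold nb
  exact Finset.card_filter_add_card_filter_not _

lemma cons_le (hW : Ker W) (D : Finset V) (s : ℕ) :
    ∑ x ∈ D, (cl W (nb W D x) s).card ≤ (cl W D (s + 1)).card := by
  classical
  rw [← Finset.card_sigma]
  refine Finset.card_le_card_of_injOn (fun p => Fin.cons p.1 p.2) ?_ ?_
  · rintro ⟨x, y⟩ hp
    rw [Finset.mem_coe, Finset.mem_sigma] at hp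
    obtain ⟨hx, hy⟩ := hp
    simp only at hx hy
    rw [mem_cl] at hy
    rw [Finset.mem_coe, mem_cl]
    have h1 : ∀ i, y i ∈ D ∧ W x (y i) = 1 := fun i => by
      have := hy.1 i
      unfold nb at this
      rw [Finset.mem_filter] at this
      exact this
    refine ⟨fun i => ?_, fun i j hij => ?_⟩
    · refine Fin.cases ?_ (fun i => ?_) i
      · exact hx
      · exact (h1 i).1
    · revert hij
      refine Fin.cases ?_ (fun i => ?_) i
      · refine Fin.cases ?_ (fun j => ?_) j
        · intro h; exact absurd rfl h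
        · intro _
          simp only [Fin.cons_zero, Fin.cons_succ]
          exact (h1 j).2
      · refine Fin.cases ?_ (fun j => ?_) j
        · intro _
          simp only [Fin.cons_zero, Fin.cons_succ]
          rw [hW.symm]
          exact (h1 i).2
        · intro hij
          simp only [Fin.cons_succ]
          exact hy.2 i j fun h => hij (by rw [h])
  · rintro ⟨x, y⟩ _ ⟨x', y'⟩ _ h
    simp only at h
    rw [Fin.cons_inj] at h
    obtain ⟨h1, h2⟩ := h
    subst h1; subst h2; rfl

end ram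

/-- two sided form -/
lemma ram2 (a : ℕ) : ∀ b : ℕ, ∃ c : ℝ, 0 < c ∧ ∀ (V : Type) [Fintype V] (W : V → V → ℝ), Ker W →
    ∀ D : Finset V, c * (D.card : ℝ) ^ (a + b) ≤ ((cl W D a).card : ℝ) * (D.card : ℝ) ^ b +
      ((cl (co W) D b).card : ℝ) * (D.card : ℝ) ^ a := by
  induction a with
  | zero =>
    intro b
    refine ⟨1, one_pos, fun V _ W _ D => ?_⟩
    rw [cl_zero, zero_add]
    have : (0 : ℝ) ≤ ((cl (co W) D b).card : ℝ) * (D.card : ℝ) ^ 0 := by positivity
    push_cast
    linarith
  | succ a iha =>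
    intro b
    induction b with
    | zero =>
      refine ⟨1, one_pos, fun V _ W _ D => ?_⟩
      rw [cl_zero, add_zero]
      have : (0 : ℝ) ≤ ((cl W D (a + 1)).card : ℝ) * (D.card : ℝ) ^ 0 := by positivity
      push_cast
      linarith
    | succ b ihb =>
      obtain ⟨c1, hc1, h1⟩ := iha (b + 1)
      obtain ⟨c2, hc2, h2⟩ := ihb
      have hc3 : 0 < min c1 c2 := lt_min hc1 hc2
      refine ⟨min c1 c2 / 2 ^ (a + b + 1) / 2, by positivity, fun V _ W hW D => ?_⟩
      set d : ℝ := (D.card : ℝ) with hd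
      have hd0 : 0 ≤ d := Nat.cast_nonneg _
      set p : ℝ := ((cl W D (a + 1)).card : ℝ) with hp
      set q : ℝ := ((cl (co W) D (b + 1)).card : ℝ) with hq
      have hp0 : 0 ≤ p := Nat.cast_nonneg _
      have hq0 : 0 ≤ q := Nat.cast_nonneg _
      have hW' := ker_co hW
      have key : ∀ x ∈ D, min c1 c2 / 2 ^ (a + b + 1) * d ^ (a + b + 1) ≤
          ((cl W (nb W D x) a).card : ℝ) * d ^ (b + 1) + q * d ^ a + p * d ^ b +
            ((cl (co W) (nb (co W) D x) b).card : ℝ) * d ^ (a + 1) := by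
        intro x _
        set n1 : ℝ := ((nb W D x).card : ℝ) with hn1
        set n2 : ℝ := ((nb (co W) D x).card : ℝ) with hn2
        have hn : n1 + n2 = d := by
          have := nb_card hW D x
          rw [hn1, hn2, hd]
          exact_mod_cast this
        have hn10 : 0 ≤ n1 := Nat.cast_nonneg _
        have hn20 : 0 ≤ n2 := Nat.cast_nonneg _
        have e1 := h1 V W hW (nb W D x)
        have e2 := h2 V W hW (nb (co W) D x)
        rw [← hn1] at e1
        rw [← hn2] at e2
        have m1 : ((cl (co W) (nb W D x) (b + 1)).card : ℝ) ≤ q := by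
          rw [hq]; exact_mod_cast Finset.card_le_card (cl_mono (nb_sub D x) _)
        have m2 : ((cl W (nb (co W) D x) (a + 1)).card : ℝ) ≤ p := by
          rw [hp]; exact_mod_cast Finset.card_le_card (cl_mono (nb_sub D x) _)
        have z1 : (0 : ℝ) ≤ ((cl W (nb W D x) a).card : ℝ) := Nat.cast_nonneg _
        have z2 : (0 : ℝ) ≤ ((cl (co W) (nb (co W) D x) b).card : ℝ) := Nat.cast_nonneg _
        have half : ∀ t : ℝ, 0 ≤ t → d ≤ 2 * t →
            min c1 c2 / 2 ^ (a + b + 1) * d ^ (a + b + 1) ≤ min c1 c2 * t ^ (a + b + 1) := by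
          intro t ht hdt
          have h3 : d ^ (a + b + 1) ≤ 2 ^ (a + b + 1) * t ^ (a + b + 1) := by
            rw [← mul_pow]
            exact pow_le_pow_left₀ hd0 hdt _
          have h4 : min c1 c2 / 2 ^ (a + b + 1) * (2 ^ (a + b + 1) * t ^ (a + b + 1)) =
              min c1 c2 * t ^ (a + b + 1) := by
            field_simp
          rw [← h4]
          exact mul_le_mul_of_nonneg_left h3 (by positivity)
        rcases le_total n2 n1 with h | h
        · have f1 := half n1 hn10 (by linarith)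
          have f2 : min c1 c2 * n1 ^ (a + b + 1) ≤ c1 * n1 ^ (a + (b + 1)) := by
            rw [← add_assoc]
            exact mul_le_mul_of_nonneg_right (min_le_left _ _) (by positivity)
          have f3 : ((cl W (nb W D x) a).card : ℝ) * n1 ^ (b + 1) ≤
              ((cl W (nb W D x) a).card : ℝ) * d ^ (b + 1) :=
            mul_le_mul_of_nonneg_left (pow_le_pow_left₀ hn10 (by linarith) _) z1
          have f4 : ((cl (co W) (nb W D x) (b + 1)).card : ℝ) * n1 ^ a ≤ q * d ^ a :=
            mul_le_mul m1 (pow_le_pow_left₀ hn10 (by linarith) _) (by positivity) hq0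
          have f5 : 0 ≤ p * d ^ b := by positivity
          have f6 : 0 ≤ ((cl (co W) (nb (co W) D x) b).card : ℝ) * d ^ (a + 1) := by positivity
          linarith
        · have f1 := half n2 hn20 (by linarith)
          have f2 : min c1 c2 * n2 ^ (a + b + 1) ≤ c2 * n2 ^ (a + 1 + b) := by
            rw [show a + 1 + b = a + b + 1 by ring]
            exact mul_le_mul_of_nonneg_right (min_le_right _ _) (by positivity)
          have f3 : ((cl (co W) (nb (co W) D x) b).card : ℝ) * n2 ^ (a + 1) ≤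
              ((cl (co W) (nb (co W) D x) b).card : ℝ) * d ^ (a + 1) :=
            mul_le_mul_of_nonneg_left (pow_le_pow_left₀ hn20 (by linarith) _) z2
          have f4 : ((cl W (nb (co W) D x) (a + 1)).card : ℝ) * n2 ^ b ≤ p * d ^ b :=
            mul_le_mul m2 (pow_le_pow_left₀ hn20 (by linarith) _) (by positivity) hp0
          have f5 : 0 ≤ q * d ^ a := by positivity
          have f6 : 0 ≤ ((cl W (nb W D x) a).card : ℝ) * d ^ (b + 1) := by positivity
          linarith
      have hsum := Finset.sum_le_sum key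
      rw [Finset.sum_const, nsmul_eq_mul, ← hd, Finset.sum_add_distrib, Finset.sum_add_distrib,
        Finset.sum_add_distrib, Finset.sum_const, Finset.sum_const, nsmul_eq_mul, nsmul_eq_mul,
        ← hd, ← Finset.sum_mul, ← Finset.sum_mul] at hsum
      have g1 : ∑ x ∈ D, ((cl W (nb W D x) a).card : ℝ) ≤ p := by
        rw [hp]; exact_mod_cast cons_le hW D a
      have g2 : ∑ x ∈ D, ((cl (co W) (nb (co W) D x) b).card : ℝ) ≤ q := by
        rw [hq]; exact_mod_cast cons_le hW' D b
      have g3 := mul_le_mul_of_nonneg_right g1 (pow_nonneg hd0 (b + 1))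
      have g4 := mul_le_mul_of_nonneg_right g2 (pow_nonneg hd0 (a + 1))
      have e5 : min c1 c2 / 2 ^ (a + b + 1) / 2 * d ^ (a + 1 + (b + 1)) =
          (d * (min c1 c2 / 2 ^ (a + b + 1) * d ^ (a + b + 1))) / 2 := by ring
      rw [e5]
      have e6 : d * (q * d ^ a) = q * d ^ (a + 1) := by ring
      have e7 : d * (p * d ^ b) = p * d ^ (b + 1) := by ring
      rw [e6, e7] at hsum
      linarith

theorem ram : SRam := by
  intro k
  obtain ⟨c, hc, h⟩ := ram2 k k
  refine ⟨min c 1, lt_min hc one_pos, fun V _ W hW D => ?_⟩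
  rcases Nat.eq_zero_or_pos D.card with h0 | h0
  · rw [h0]
    rcases Nat.eq_zero_or_pos k with hk | hk
    · subst hk
      rw [cl_zero, cl_zero]
      have := min_le_right c 1
      simp only [pow_zero, mul_one, Nat.cast_one]
      linarith
    · rw [Nat.cast_zero, zero_pow hk.ne', mul_zero]
      positivity
  · have hd : (0 : ℝ) < (D.card : ℝ) := by exact_mod_cast h0
    have h1 := h V W hW D
    rw [← add_mul, pow_add, ← mul_assoc] at h1
    have h2 := le_of_mul_le_mul_right h1 (pow_pos hd k)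
    exact (mul_le_mul_of_nonneg_right (min_le_left _ _) (by positivity)).trans h2

end Pool.Agent.W688.LP
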